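import Pool.Agent.X161.MC.Exist

/-!
# MP_ab672e_co: the largest 322-enclosing circle is not unique up to lattice symmetries
-/

set_option autoImplicit false

namespace Pool.Agent.Results.MP_ab672e_co.TwoLargest

open Pool.Agent.X161.MC

/-- The Euclidean plane. -/
abbrev Plane := EuclideanSpace ℝ (Fin 2)

/-- The lattice points. -/
def lattice : Set Plane := {v | ∀ i, ∃ m : ℤ, v i = m}

/-- The lattice points enclosed by the circle with centre `c` and radius `r`. -/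
def enclosed (c : Plane) (r : ℝ) : Set Plane := lattice ∩ Metric.ball c r

/-- The circle with centre `c` and radius `r` is `n`-enclosing. -/
def IsEnclosing (n : ℕ) (c : Plane) (r : ℝ) : Prop := 0 < r ∧ (enclosed c r).encard = n

/-- The circle with centre `c` and radius `r` is an MC-circle of `n`, i.e. a largest `n`-enclosing
circle. -/
def IsMCCircle (n : ℕ) (c : Plane) (r : ℝ) : Prop :=
  IsEnclosing n c r ∧ ∀ c' r', IsEnclosing n c' r' → r' ≤ r

/-- `n` is MC. -/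
def IsMC (n : ℕ) : Prop := ∃ c r, IsMCCircle n c r

/-- `A` is an MC-set of `n`. -/
def IsMCSet (n : ℕ) (A : Set Plane) : Prop := ∃ c r, IsMCCircle n c r ∧ A = enclosed c r

/-- `g` is a lattice symmetry. -/
def IsLatticeSymmetry (g : Plane → Plane) : Prop := Isometry g ∧ g '' lattice = lattice

/-- Assertion (i) for `n`. -/
def UniqueCircle (n : ℕ) : Prop := ∀ c r c' r', IsMCCircle n c r → IsMCCircle n c' r' →
  ∃ g, IsLatticeSymmetry g ∧ g '' Metric.sphere c r = Metric.sphere c' r'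

/-- Assertion (ii) for `n`. -/
def UniqueSet (n : ℕ) : Prop := ∀ A A', IsMCSet n A → IsMCSet n A' →
  ∃ g, IsLatticeSymmetry g ∧ g '' A = A'

/-! ### Coordinates -/

/-- The lattice point with the coordinates `p`. -/
noncomputable def pt (p : ℤ × ℤ) : Plane := !₂[(p.1 : ℝ), (p.2 : ℝ)]

lemma pt_mem (p : ℤ × ℤ) : pt p ∈ lattice := by
  intro i
  fin_cases i
  · exact ⟨p.1, rfl⟩
  · exact ⟨p.2, rfl⟩

lemma exists_pt {v : Plane} (hv : v ∈ lattice) : ∃ p, pt p = v := by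
  obtain ⟨a, ha⟩ := hv 0
  obtain ⟨b, hb⟩ := hv 1
  refine ⟨(a, b), ?_⟩
  ext i
  fin_cases i
  · exact ha.symm
  · exact hb.symm

lemma pt_inj : Function.Injective pt := by
  rintro ⟨a, b⟩ ⟨c, d⟩ h
  have h0 := congrArg (fun v : Plane => v 0) h
  have h1 := congrArg (fun v : Plane => v 1) h
  simp [pt] at h0 h1
  rw [h0, h1]

lemma dist_sq (v w : Plane) : dist v w ^ 2 = (v 0 - w 0) ^ 2 + (v 1 - w 1) ^ 2 := by
  rw [EuclideanSpace.dist_eq, Real.sq_sqrt (by positivity)]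
  simp [Real.dist_eq]

lemma dist_pt (c : Plane) (p : ℤ × ℤ) : dist (pt p) c ^ 2 = sd (c 0) (c 1) p := by
  rw [dist_sq]
  rfl

lemma mem_ball_iff {c : Plane} {r : ℝ} (hr : 0 < r) (p : ℤ × ℤ) :
    pt p ∈ Metric.ball c r ↔ sd (c 0) (c 1) p < r ^ 2 := by
  rw [Metric.mem_ball, ← dist_pt, sq_lt_sq₀ dist_nonneg hr.le]

lemma enclosed_eq {c : Plane} {r : ℝ} (hr : 0 < r) :
    enclosed c r = pt '' enc (c 0) (c 1) (r ^ 2) := by
  ext v
  constructor
  · rintro ⟨h1, h2⟩
    obtain ⟨p, rfl⟩ := exists_pt h1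
    exact ⟨p, (mem_ball_iff hr p).1 h2, rfl⟩
  · rintro ⟨p, hp, rfl⟩
    exact ⟨pt_mem p, (mem_ball_iff hr p).2 hp⟩

lemma encard_eq {c : Plane} {r : ℝ} (hr : 0 < r) :
    (enclosed c r).encard = cnt (c 0) (c 1) (r ^ 2) := by
  rw [enclosed_eq hr, pt_inj.encard_image]
  exact ((enc_finite _ _ _).cast_ncard_eq).symm

/-! ### The certificate -/

/-- The regions around the critical centres. -/
def nb (a b h : ℕ) : Bool := near 576 576 68 a b h || (near 1088 192 68 a b h || near 192 1088 68 a b h)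

lemma cert : chk 2176 492544000 11 323 nb 14 0 0 1088 = true := by decide +kernel

lemma core1 : 322 ≤ boxCount 2176 492544000 11 508 644 508 644 := by decide +kernel

lemma core2 : 322 ≤ boxCount 2176 492544000 11 1020 1088 124 260 := by decide +kernel

lemma S_eq : (((492544000 : ℕ) : ℝ) / ((2176 : ℕ) : ℝ) ^ 2) = 60125 / 578 := by norm_num

lemma near1 {x y : ℝ} (h1 : 508 ≤ x * 2176) (h2 : x * 2176 ≤ 644) (h3 : 508 ≤ y * 2176)
    (h4 : y * 2176 ≤ 644) (hne : ¬ (x = 9 / 34 ∧ y = 9 / 34)) : 323 ≤ cnt x y (60125 / 578) := by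
  obtain ⟨w, hw⟩ : ∃ w : ℝ, w = x - 9 / 34 := ⟨_, rfl⟩
  obtain ⟨v, hv⟩ : ∃ v : ℝ, v = y - 9 / 34 := ⟨_, rfl⟩
  have ex : x = w + 9 / 34 := by linarith
  have ey : y = v + 9 / 34 := by linarith
  subst ex ey
  have hq1 : w ^ 2 ≤ |w| / 32 := by
    rcases abs_cases w with ⟨h, _⟩ | ⟨h, _⟩ <;> rw [h] <;> nlinarith
  have hq2 : v ^ 2 ≤ |v| / 32 := by
    rcases abs_cases v with ⟨h, _⟩ | ⟨h, _⟩ <;> rw [h] <;> nlinarith
  have hpos : 0 < |w| + |v| := by
    rcases eq_or_ne w 0 with h5 | h5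
    · rcases eq_or_ne v 0 with h6 | h6
      · exact absurd ⟨by rw [h5]; norm_num, by rw [h6]; norm_num⟩ hne
      · have := abs_pos.2 h6
        have := abs_nonneg w
        linarith
    · have := abs_pos.2 h5
      have := abs_nonneg v
      linarith
  have fin : ∀ p : ℤ × ℤ, sd (9 / 34) (9 / 34) p = 60125 / 578 →
      (|w| + |v|) / 32 < ((34 * (p.1 : ℝ) - 9) * w + (34 * (p.2 : ℝ) - 9) * v) / 17 →
      323 ≤ cnt (w + 9 / 34) (v + 9 / 34) (60125 / 578) := by
    intro p hp0 hp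
    rw [← S_eq] at *
    have := near_count (M := 2176) (S := 492544000) (a := 508) (a' := 644) (b := 508) (b' := 644)
      (by norm_num) (by norm_num) (by norm_num) (x₀ := 9 / 34) (y₀ := 9 / 34) (x := w + 9 / 34)
      (y := v + 9 / 34)
      (by norm_num) (by norm_num) (by norm_num) (by norm_num) (by norm_num) (by norm_num)
      (by norm_num) (by norm_num) (by norm_num; linarith) (by norm_num; linarith)
      (by norm_num; linarith) (by norm_num; linarith) (by linarith) (by linarith)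
      (by linarith) (by linarith) 11 {p}
      (by
        intro a ha
        rw [Finset.mem_singleton] at ha
        rw [ha]
        exact hp0.ge)
      (by
        intro a ha
        rw [Finset.mem_singleton] at ha
        rw [ha]
        simp only [sd] at hp0 ⊢
        nlinarith)
    have c := core1
    rw [Finset.card_singleton] at this
    omega
  rcases abs_cases w with ⟨ew, sw⟩ | ⟨ew, sw⟩ <;> rcases abs_cases v with ⟨ev, sv⟩ | ⟨ev, sv⟩ <;>
    rw [ew, ev] at hpos fin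
  · rcases le_total v w with h | h
    · exact fin (9, -5) (by norm_num [sd]) (by push_cast; linarith)
    · exact fin (-5, 9) (by norm_num [sd]) (by push_cast; linarith)
  · exact fin (9, -5) (by norm_num [sd]) (by push_cast; linarith)
  · exact fin (-5, 9) (by norm_num [sd]) (by push_cast; linarith)
  · exact fin (-9, -4) (by norm_num [sd]) (by push_cast; linarith)

lemma near2 {x y : ℝ} (h1 : 1020 ≤ x * 2176) (h2 : x ≤ 1 / 2) (h3 : 124 ≤ y * 2176)
    (h4 : y * 2176 ≤ 260) (hne : ¬ (x = 1 / 2 ∧ y = 3 / 34)) : 323 ≤ cnt x y (60125 / 578) := by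
  obtain ⟨w, hw⟩ : ∃ w : ℝ, w = x - 1 / 2 := ⟨_, rfl⟩
  obtain ⟨v, hv⟩ : ∃ v : ℝ, v = y - 3 / 34 := ⟨_, rfl⟩
  have ex : x = w + 1 / 2 := by linarith
  have ey : y = v + 3 / 34 := by linarith
  subst ex ey
  have hw0 : w ≤ 0 := by linarith
  have hq1 : w ^ 2 ≤ |w| / 32 := by
    rcases abs_cases w with ⟨h, _⟩ | ⟨h, _⟩ <;> rw [h] <;> nlinarith
  have hq2 : v ^ 2 ≤ |v| / 32 := by
    rcases abs_cases v with ⟨h, _⟩ | ⟨h, _⟩ <;> rw [h] <;> nlinarith
  have hpos : 0 < |w| + |v| := by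
    rcases eq_or_ne w 0 with h5 | h5
    · rcases eq_or_ne v 0 with h6 | h6
      · exact absurd ⟨by rw [h5]; norm_num, by rw [h6]; norm_num⟩ hne
      · have := abs_pos.2 h6
        have := abs_nonneg w
        linarith
    · have := abs_pos.2 h5
      have := abs_nonneg v
      linarith
  have fin : ∀ p : ℤ × ℤ, sd (1 / 2) (3 / 34) p = 60125 / 578 →
      (|w| + |v|) / 32 < ((34 * (p.1 : ℝ) - 17) * w + (34 * (p.2 : ℝ) - 3) * v) / 17 →
      323 ≤ cnt (w + 1 / 2) (v + 3 / 34) (60125 / 578) := by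
    intro p hp0 hp
    rw [← S_eq] at *
    have := near_count (M := 2176) (S := 492544000) (a := 1020) (a' := 1088) (b := 124) (b' := 260)
      (by norm_num) (by norm_num) (by norm_num) (x₀ := 1 / 2) (y₀ := 3 / 34) (x := w + 1 / 2)
      (y := v + 3 / 34)
      (by norm_num) (by norm_num) (by norm_num) (by norm_num) (by norm_num) (by norm_num)
      (by norm_num) (by norm_num) (by norm_num; linarith) (by norm_num; linarith)
      (by norm_num; linarith) (by norm_num; linarith) (by linarith) (by linarith)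
      (by linarith) (by linarith) 11 {p}
      (by
        intro a ha
        rw [Finset.mem_singleton] at ha
        rw [ha]
        exact hp0.ge)
      (by
        intro a ha
        rw [Finset.mem_singleton] at ha
        rw [ha]
        simp only [sd] at hp0 ⊢
        nlinarith)
    have c := core2
    rw [Finset.card_singleton] at this
    omega
  rcases abs_cases w with ⟨ew, sw⟩ | ⟨ew, sw⟩ <;> rcases abs_cases v with ⟨ev, sv⟩ | ⟨ev, sv⟩ <;>
    rw [ew, ev] at hpos fin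
  · exact fin (-7, 7) (by norm_num [sd]) (by push_cast; linarith)
  · exact fin (-1, -10) (by norm_num [sd]) (by push_cast; linarith)
  · exact fin (-7, 7) (by norm_num [sd]) (by push_cast; linarith)
  · exact fin (-1, -10) (by norm_num [sd]) (by push_cast; linarith)

lemma lower {x y : ℝ} (hx0 : 0 ≤ x) (hx1 : x ≤ 1 / 2) (hy0 : 0 ≤ y) (hy1 : y ≤ 1 / 2)
    (hne : ¬ (x = 9 / 34 ∧ y = 9 / 34)) (hne2 : ¬ (x = 1 / 2 ∧ y = 3 / 34))
    (hne3 : ¬ (x = 3 / 34 ∧ y = 1 / 2)) : 323 ≤ cnt x y (60125 / 578) := by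
  rw [← S_eq]
  rcases chk_sound (by norm_num) 14 0 0 1088 (by norm_num) (by norm_num) cert x y
    (by push_cast; linarith) (by push_cast; linarith) (by push_cast; linarith)
    (by push_cast; linarith) with h | h
  · exact h
  obtain ⟨a, b, h, hn, h1, h2, h3, h4⟩ := h
  rw [nb, Bool.or_eq_true, Bool.or_eq_true] at hn
  rw [S_eq]
  rcases hn with hn | hn | hn
  · obtain ⟨e1, e2, e3, e4⟩ := near_spec hn h1 h2 h3 h4
    norm_num at e1 e2 e3 e4
    exact near1 (by linarith) (by linarith) (by linarith) (by linarith) hne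
  · obtain ⟨e1, e2, e3, e4⟩ := near_spec hn h1 h2 h3 h4
    norm_num at e1 e2 e3 e4
    exact near2 (by linarith) hx1 (by linarith) (by linarith) hne2
  · obtain ⟨e1, e2, e3, e4⟩ := near_spec hn h1 h2 h3 h4
    norm_num at e1 e2 e3 e4
    rw [cnt_swap]
    exact near2 (by linarith) hy1 (by linarith) (by linarith) (fun h => hne3 ⟨h.2, h.1⟩)

lemma count1 : cnt (9 / 34) (9 / 34) (60125 / 578) = 322 := by
  have h := cnt_exact (M := 34) (X := 9) (Y := 9) (S := 120250) 11 (by norm_num) (by norm_num)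
    (by norm_num) (by norm_num)
  norm_num at h
  rw [h]
  decide +kernel

lemma count2 : cnt (1 / 2) (3 / 34) (60125 / 578) = 322 := by
  have h := cnt_exact (M := 34) (X := 17) (Y := 3) (S := 120250) 11 (by norm_num) (by norm_num)
    (by norm_num) (by norm_num)
  norm_num at h
  rw [h]
  decide +kernel

lemma beyond (x y : ℝ) {s : ℝ} (hs : 60125 / 578 < s) : 323 ≤ cnt x y s := by
  have g2 : 323 ≤ cnt (1 / 2) (3 / 34) s := by
    have := cnt_gt hs {(-7, 7)} (x := 1 / 2) (y := 3 / 34) (by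
      intro p hp
      rw [Finset.mem_singleton] at hp
      rw [hp]
      norm_num [sd])
    rwa [count2] at this
  obtain ⟨x', y', h1, h2, h3, h4, h5⟩ := exists_red x y
  rw [h5]
  by_cases hc : x' = 9 / 34 ∧ y' = 9 / 34
  · obtain ⟨rfl, rfl⟩ := hc
    have := cnt_gt hs {(9, -5)} (x := 9 / 34) (y := 9 / 34) (by
      intro p hp
      rw [Finset.mem_singleton] at hp
      rw [hp]
      norm_num [sd])
    rwa [count1] at this
  by_cases hc2 : x' = 1 / 2 ∧ y' = 3 / 34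
  · obtain ⟨rfl, rfl⟩ := hc2
    exact g2
  by_cases hc3 : x' = 3 / 34 ∧ y' = 1 / 2
  · obtain ⟨rfl, rfl⟩ := hc3
    rw [cnt_swap]
    exact g2
  exact (lower h1 h2 h3 h4 hc hc2 hc3).trans (cnt_mono hs.le)

/-! ### The two circles -/

/-- The first centre. -/
noncomputable def c₁ : Plane := !₂[9 / 34, 9 / 34]

/-- The second centre. -/
noncomputable def c₂ : Plane := !₂[1 / 2, 3 / 34]

/-- The radius. -/
noncomputable def R : ℝ := √(60125 / 578)

lemma R_pos : 0 < R := Real.sqrt_pos.2 (by norm_num)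

lemma R_sq : R ^ 2 = 60125 / 578 := Real.sq_sqrt (by norm_num)

lemma le_R {c : Plane} {r : ℝ} (h : IsEnclosing 322 c r) : r ≤ R := by
  obtain ⟨h0, hc⟩ := h
  rw [encard_eq h0] at hc
  have hc' : cnt (c 0) (c 1) (r ^ 2) = 322 := by exact_mod_cast hc
  by_contra hcon
  push Not at hcon
  have hs : 60125 / 578 < r ^ 2 := (Real.sqrt_lt' h0).1 hcon
  have := beyond (c 0) (c 1) hs
  omega

lemma mc1 : IsMCCircle 322 c₁ R := by
  refine ⟨⟨R_pos, ?_⟩, fun c r h => le_R h⟩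
  rw [encard_eq R_pos, R_sq]
  have : cnt (c₁ 0) (c₁ 1) (60125 / 578) = 322 := count1
  rw [this]

lemma mc2 : IsMCCircle 322 c₂ R := by
  refine ⟨⟨R_pos, ?_⟩, fun c r h => le_R h⟩
  rw [encard_eq R_pos, R_sq]
  have : cnt (c₂ 0) (c₂ 1) (60125 / 578) = 322 := count2
  rw [this]

lemma dist_pt_pt (p q : ℤ × ℤ) :
    dist (pt p) (pt q) ^ 2 = (((p.1 - q.1) ^ 2 + (p.2 - q.2) ^ 2 : ℤ) : ℝ) := by
  rw [dist_sq]
  push_cast
  rfl

lemma sd1 (p : ℤ × ℤ) : sd (9 / 34) (9 / 34) p * 1156 =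
    (((34 * p.1 - 9) ^ 2 + (34 * p.2 - 9) ^ 2 : ℤ) : ℝ) := by
  rw [sd]
  push_cast
  ring

/-- No two lattice points on the first circle have distance `3`. -/
lemma no_three {p q : ℤ × ℤ} (hp : sd (9 / 34) (9 / 34) p = 60125 / 578)
    (hq : sd (9 / 34) (9 / 34) q = 60125 / 578) (h : (p.1 - q.1) ^ 2 + (p.2 - q.2) ^ 2 = 9) :
    False := by
  have key : ∀ a ∈ Finset.Icc (-10 : ℤ) 10, ∀ b ∈ Finset.Icc (-10 : ℤ) 10,
      (34 * a - 9) ^ 2 + (34 * b - 9) ^ 2 = 120250 →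
      (a, b) ∈ ({(-9, -4), (-5, 9), (-4, -9), (9, -5)} : Finset (ℤ × ℤ)) := by
    decide +kernel
  have mem : ∀ p : ℤ × ℤ, sd (9 / 34) (9 / 34) p = 60125 / 578 →
      p ∈ ({(-9, -4), (-5, 9), (-4, -9), (9, -5)} : Finset (ℤ × ℤ)) := by
    rintro ⟨a, b⟩ hp
    have h1 := sd1 (a, b)
    rw [hp] at h1
    norm_num at h1
    have h2 : (34 * a - 9) ^ 2 + (34 * b - 9) ^ 2 = 120250 := by
      have : (120250 : ℝ) = (34 * a - 9) ^ 2 + (34 * b - 9) ^ 2 := by linarith
      exact_mod_cast this.symm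
    refine key a ?_ b ?_ h2 <;> rw [Finset.mem_Icc] <;> constructor <;>
      nlinarith [sq_nonneg (34 * a - 9), sq_nonneg (34 * b - 9)]
  have hp' := mem p hp
  have hq' := mem q hq
  have key2 : ∀ p ∈ ({(-9, -4), (-5, 9), (-4, -9), (9, -5)} : Finset (ℤ × ℤ)),
      ∀ q ∈ ({(-9, -4), (-5, 9), (-4, -9), (9, -5)} : Finset (ℤ × ℤ)),
      (p.1 - q.1) ^ 2 + (p.2 - q.2) ^ 2 ≠ 9 := by
    decide
  exact key2 p hp' q hq' h

/-- No two lattice points enclosed by the first circle have squared distance `405`. -/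
lemma no_405 {p q : ℤ × ℤ} (hp : sd (9 / 34) (9 / 34) p < 60125 / 578)
    (hq : sd (9 / 34) (9 / 34) q < 60125 / 578) (h : (p.1 - q.1) ^ 2 + (p.2 - q.2) ^ 2 = 405) :
    False := by
  have sc : ∀ p : ℤ × ℤ, sd (9 / 34) (9 / 34) p < 60125 / 578 →
      (34 * p.1 - 9) ^ 2 + (34 * p.2 - 9) ^ 2 < 120250 := by
    intro p hp
    have h1 := sd1 p
    have : (((34 * p.1 - 9) ^ 2 + (34 * p.2 - 9) ^ 2 : ℤ) : ℝ) < 120250 := by
      rw [← h1]
      linarith
    exact_mod_cast this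
  have hp' := sc p hp
  have hq' := sc q hq
  obtain ⟨d, hd⟩ : ∃ d : ℤ × ℤ, d = (p.1 - q.1, p.2 - q.2) := ⟨_, rfl⟩
  have hd1 : p.1 = q.1 + d.1 := by rw [hd]; ring
  have hd2 : p.2 = q.2 + d.2 := by rw [hd]; ring
  have hdd : d.1 ^ 2 + d.2 ^ 2 = 405 := by rw [hd]; exact h
  have key : ∀ a ∈ Finset.Icc (-21 : ℤ) 21, ∀ b ∈ Finset.Icc (-21 : ℤ) 21,
      a ^ 2 + b ^ 2 = 405 → (a, b) ∈ ({(18, 9), (18, -9), (-18, 9), (-18, -9), (9, 18), (9, -18),
        (-9, 18), (-9, -18)} : Finset (ℤ × ℤ)) := by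
    decide +kernel
  have hmem : d ∈ ({(18, 9), (18, -9), (-18, 9), (-18, -9), (9, 18), (9, -18),
        (-9, 18), (-9, -18)} : Finset (ℤ × ℤ)) := by
    refine key d.1 ?_ d.2 ?_ hdd <;> rw [Finset.mem_Icc] <;> constructor <;>
      nlinarith [sq_nonneg d.1, sq_nonneg d.2]
  have key2 : ∀ a ∈ Finset.Icc (-10 : ℤ) 10, ∀ b ∈ Finset.Icc (-10 : ℤ) 10,
      ∀ d ∈ ({(18, 9), (18, -9), (-18, 9), (-18, -9), (9, 18), (9, -18),
        (-9, 18), (-9, -18)} : Finset (ℤ × ℤ)), (34 * a - 9) ^ 2 + (34 * b - 9) ^ 2 < 120250 →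
      ¬ (34 * (a + d.1) - 9) ^ 2 + (34 * (b + d.2) - 9) ^ 2 < 120250 := by
    decide +kernel
  rw [hd1, hd2] at hp'
  refine key2 q.1 ?_ q.2 ?_ d hmem hq' hp' <;> rw [Finset.mem_Icc] <;> constructor <;>
    nlinarith [sq_nonneg (34 * q.1 - 9), sq_nonneg (34 * q.2 - 9)]

lemma circles_differ {g : Plane → Plane} (hg : IsLatticeSymmetry g) :
    g '' Metric.sphere c₁ R ≠ Metric.sphere c₂ R := by
  intro h
  obtain ⟨hiso, hlat⟩ := hg
  have lift : ∀ p : ℤ × ℤ, sd (1 / 2) (3 / 34) p = 60125 / 578 →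
      ∃ q : ℤ × ℤ, sd (9 / 34) (9 / 34) q = 60125 / 578 ∧ g (pt q) = pt p := by
    intro p hp
    have h1 : pt p ∈ Metric.sphere c₂ R := by
      rw [Metric.mem_sphere]
      have h2 : dist (pt p) c₂ ^ 2 = R ^ 2 := by
        rw [dist_pt, R_sq]
        exact hp
      exact (pow_left_inj₀ dist_nonneg R_pos.le (by norm_num)).1 h2
    rw [← h] at h1
    obtain ⟨v, hv, hgv⟩ := h1
    have h3 : pt p ∈ g '' lattice := by
      rw [hlat]
      exact pt_mem p
    obtain ⟨v', hv', hgv'⟩ := h3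
    have h4 : v' = v := hiso.injective (hgv'.trans hgv.symm)
    obtain ⟨q, hq⟩ := exists_pt hv'
    refine ⟨q, ?_, by rw [hq]; exact hgv'⟩
    have h5 := dist_pt c₁ q
    rw [hq, h4, Metric.mem_sphere.1 hv, R_sq] at h5
    exact h5.symm
  obtain ⟨p, hp, hgp⟩ := lift (-1, -10) (by norm_num [sd])
  obtain ⟨q, hq, hgq⟩ := lift (2, -10) (by norm_num [sd])
  have h6 : dist (pt p) (pt q) = dist (pt (-1, -10)) (pt (2, -10)) := by
    rw [← hgp, ← hgq, hiso.dist_eq]
  have h7 := dist_pt_pt p q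
  rw [h6, dist_pt_pt] at h7
  refine no_three hp hq ?_
  have h8 : ((p.1 - q.1) ^ 2 + (p.2 - q.2) ^ 2 : ℤ) = (-1 - 2) ^ 2 + (-10 - (-10)) ^ 2 := by
    exact_mod_cast h7.symm
  rw [h8]
  norm_num

lemma sets_differ {g : Plane → Plane} (hg : IsLatticeSymmetry g) :
    g '' enclosed c₁ R ≠ enclosed c₂ R := by
  intro h
  have hiso := hg.1
  have lift : ∀ p : ℤ × ℤ, sd (1 / 2) (3 / 34) p < 60125 / 578 →
      ∃ q : ℤ × ℤ, sd (9 / 34) (9 / 34) q < 60125 / 578 ∧ g (pt q) = pt p := by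
    intro p hp
    have h1 : pt p ∈ enclosed c₂ R := by
      rw [enclosed_eq R_pos, R_sq]
      exact ⟨p, hp, rfl⟩
    rw [← h, enclosed_eq R_pos, R_sq] at h1
    obtain ⟨v, ⟨q, hq, rfl⟩, hgv⟩ := h1
    exact ⟨q, hq, hgv⟩
  obtain ⟨p, hp, hgp⟩ := lift (-4, 9) (by norm_num [sd])
  obtain ⟨q, hq, hgq⟩ := lift (5, -9) (by norm_num [sd])
  have h6 : dist (pt p) (pt q) = dist (pt (-4, 9)) (pt (5, -9)) := by
    rw [← hgp, ← hgq, hiso.dist_eq]
  have h7 := dist_pt_pt p q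
  rw [h6, dist_pt_pt] at h7
  refine no_405 hp hq ?_
  have h8 : ((p.1 - q.1) ^ 2 + (p.2 - q.2) ^ 2 : ℤ) = (-4 - 5) ^ 2 + (9 - (-9)) ^ 2 := by
    exact_mod_cast h7.symm
  rw [h8]
  norm_num

/-- `322` is an MC number and has two MC-circles, the circles with the centres `c₁ = (9/34, 9/34)` and
`c₂ = (1/2, 3/34)` and the radius `R = √(60125 / 578)`, that are not images of each other under a lattice
symmetry; the sets of the lattice points enclosed by them are not images of each other, either.  So (i)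
and (ii) both fail for the MC number `322`, and the assertion of the problem is false. -/
theorem result :
    (IsMCCircle 322 c₁ R ∧ IsMCCircle 322 c₂ R ∧
      (∀ g, IsLatticeSymmetry g → g '' Metric.sphere c₁ R ≠ Metric.sphere c₂ R) ∧
      (∀ g, IsLatticeSymmetry g → g '' enclosed c₁ R ≠ enclosed c₂ R)) ∧
    (IsMC 322 ∧ ¬ UniqueCircle 322 ∧ ¬ UniqueSet 322) ∧
    ¬ ∀ n : ℕ, IsMC n → UniqueCircle n ∧ UniqueSet n := by
  have h1 : ¬ UniqueCircle 322 := by
    intro h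
    obtain ⟨g, hg, hgg⟩ := h _ _ _ _ mc1 mc2
    exact circles_differ hg hgg
  have h2 : ¬ UniqueSet 322 := by
    intro h
    obtain ⟨g, hg, hgg⟩ := h _ _ ⟨_, _, mc1, rfl⟩ ⟨_, _, mc2, rfl⟩
    exact sets_differ hg hgg
  exact ⟨⟨mc1, mc2, fun g hg => circles_differ hg, fun g hg => sets_differ hg⟩,
    ⟨⟨_, _, mc1⟩, h1, h2⟩, fun h => h1 (h 322 ⟨_, _, mc1⟩).1⟩

end Pool.Agent.Results.MP_ab672e_co.TwoLargest
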